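import Pool.Agent.U762.GA.Stm

/-!
# Package NUM of project GA (helper762): the numerical inequalities
-/

set_option autoImplicit false

namespace Pool.Agent.U660.GA

/-- `a ^ (2/5) < b` if `a ^ 2 < b ^ 5` -/
theorem rpow_lt (a b : ℝ) (ha : 0 ≤ a) (hb : 0 ≤ b) (h : a ^ 2 < b ^ 5) :
    a ^ (2 / 5 : ℝ) < b := by
  by_contra hc
  push Not at hc
  have h1 : b ^ 5 ≤ (a ^ (2 / 5 : ℝ)) ^ 5 := pow_le_pow_left₀ hb hc 5
  have h2 : (a ^ (2 / 5 : ℝ)) ^ 5 = a ^ 2 := by
    rw [← Real.rpow_natCast, ← Real.rpow_mul ha, ← Real.rpow_natCast]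
    norm_num
  rw [h2] at h1
  linarith

theorem t_NUM : Pool.Agent.U762.GA.S_NUM := by
  have h1 : (1 / 2 : ℝ) ^ (2 / 5 : ℝ) < 0.7579 :=
    rpow_lt _ _ (by norm_num) (by norm_num) (by norm_num)
  have h2 : (3 / 2 : ℝ) ^ (2 / 5 : ℝ) < 1.1761 :=
    rpow_lt _ _ (by norm_num) (by norm_num) (by norm_num)
  refine ⟨by linarith, by linarith, by linarith, ?_⟩
  have h3 : Real.exp (1 / 30) < 1 / 0.9671 := by
    have h4 := Real.exp_bound' (x := 1 / 30) (by norm_num) (by norm_num) (n := 3) (by norm_num)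
    refine lt_of_le_of_lt h4 ?_
    simp only [Finset.sum_range_succ, Finset.sum_range_zero]
    norm_num [Nat.factorial]
  have h5 : (1 / 30 : ℝ) < Real.log (1 / 0.9671) := by
    rw [Real.lt_log_iff_exp_lt (by norm_num)]
    exact h3
  linarith

end Pool.Agent.U660.GA
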